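import Pool.Agent.H25.E2.Stp

/-!
# A chain of hops: the recursion

`Chn`: balls `r = 0 .. J` with growing radii; the ball `r` knows `U` to `m r` digits; the base row `r`
is a row of the first `k r` digits of `Z` given the first `n r` digits of `U`. `fast_rec`: if over the
balls `1 .. J` the digits of `U` behind `m r` move, then at the ball `0` the row of `Z` needs only
`m 1` digits of `U`, and the displacement of `Z` over the ball `0` has at most `m 1 - m 0` digits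
behind `k 0`.
-/

set_option autoImplicit false

namespace Pool.E25

open Finset Real
open Pool.Agent.H49.Ent Pool.Agent.H32.Dense Pool.STK Pool.POT Pool.TQ Pool.LPX Pool.LPK12
open Pool.K2S (Pe)

/-- The digits of `U` in the row of the ball `r`. -/
def nu (n m : ℕ → ℕ) (J r : ℕ) : ℕ := if r < J then min (n r) (m (r + 1)) else n r

theorem nu_succ (n m : ℕ → ℕ) (J r : ℕ) :
    nu (fun r => n (r + 1)) (fun r => m (r + 1)) J r = nu n m (J + 1) (r + 1) := by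
  unfold nu
  by_cases h : r < J
  · rw [if_pos h, if_pos (by omega)]
  · rw [if_neg h, if_neg (by omega)]

theorem nu_le (n m : ℕ → ℕ) (J r : ℕ) : nu n m J r ≤ n r := by
  unfold nu
  split_ifs
  · exact min_le_left _ _
  · exact le_rfl

/-- **A chain of hops.** `U` has `N` digits, `Z` has `K` digits; the ball `r` sees `n r` digits of `U`
and `k r` digits of `Z`. -/
structure Chn (D : ℕ) {Ω σ : Type} [Fintype Ω] (p : Ω → ℝ) (U Z : Ω → ℤ) (S : ℕ → Ω → σ)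
    (Ω' : ℕ → Type) [∀ r, Fintype (Ω' r)] (τ : ℕ → Type) (q : ∀ r, Ω' r → ℝ)
    (f : ∀ r, Ω' r → Ω) (W : ∀ r, Ω' r → τ r) (t : ∀ r, Ω' r → ℤ) (AU AZ : ∀ r, Ω' r → ℝ)
    (gU gZ : ∀ r, Ω' r → Fin D → ℝ) (M N K J : ℕ) (n k m : ℕ → ℕ) (C d : ℝ) : Prop where
  hop : ∀ r ≤ J, Hop D p (q r) (f r) (W r) (t r) (fun ω => tp N (n r) (U ω))
    (fun ω => tp K (k r) (Z ω)) (S r) (AU r) (AZ r) (gU r) (gZ r) M C d
  dS : ∀ r < J, Det (q (r + 1)) (W (r + 1)) (fun w => S r (f (r + 1) w))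
  su : ∀ r ≤ J, ∀ w, 0 < q r w → n1 (gU r w) ≤ C * 2 ^ (n r - m r)
  sz : ∀ r ≤ J, ∀ w, 0 < q r w → n1 (gZ r w) ≤ C * 2 ^ k r
  nn : ∀ r < J, n r ≤ n (r + 1)
  nN : ∀ r ≤ J, n r ≤ N
  kK : ∀ r ≤ J, k r ≤ K
  nk : ∀ r ≤ J, n r ≤ k r
  kM : ∀ r ≤ J, k r ≤ M
  mn : ∀ r ≤ J, m r ≤ n r
  stp : ∀ r < J, k r + (nu n m J (r + 1) - m (r + 1)) ≤ k (r + 1)

variable {D : ℕ} {Ω σ : Type} [Fintype Ω] {p : Ω → ℝ} {U Z : Ω → ℤ} {S : ℕ → Ω → σ}
  {Ω' : ℕ → Type} [∀ r, Fintype (Ω' r)] {τ : ℕ → Type} {q : ∀ r, Ω' r → ℝ} {f : ∀ r, Ω' r → Ω}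
  {W : ∀ r, Ω' r → τ r} {t : ∀ r, Ω' r → ℤ} {AU AZ : ∀ r, Ω' r → ℝ}
  {gU gZ : ∀ r, Ω' r → Fin D → ℝ} {M N K J : ℕ} {n k m : ℕ → ℕ} {C d : ℝ}

/-- The chain without the first ball. -/
theorem Chn.tail (H : Chn D p U Z S Ω' τ q f W t AU AZ gU gZ M N K (J + 1) n k m C d) :
    Chn D p U Z (fun r => S (r + 1)) (fun r => Ω' (r + 1)) (fun r => τ (r + 1))
      (fun r => q (r + 1)) (fun r => f (r + 1)) (fun r => W (r + 1)) (fun r => t (r + 1))
      (fun r => AU (r + 1)) (fun r => AZ (r + 1)) (fun r => gU (r + 1)) (fun r => gZ (r + 1))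
      M N K J (fun r => n (r + 1)) (fun r => k (r + 1)) (fun r => m (r + 1)) C d where
  hop r hr := H.hop (r + 1) (by omega)
  dS r hr := H.dS (r + 1) (by omega)
  su r hr := H.su (r + 1) (by omega)
  sz r hr := H.sz (r + 1) (by omega)
  nn r hr := H.nn (r + 1) (by omega)
  nN r hr := H.nN (r + 1) (by omega)
  kK r hr := H.kK (r + 1) (by omega)
  nk r hr := H.nk (r + 1) (by omega)
  kM r hr := H.kM (r + 1) (by omega)
  mn r hr := H.mn (r + 1) (by omega)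
  stp r hr := by
    have := H.stp (r + 1) (by omega)
    rw [nu_succ]
    exact this

theorem Nz.mono' {Ω σ : Type} [Fintype Ω] {p : Ω → ℝ} {U Z : Ω → ℤ} {S : Ω → σ} {X : ℕ}
    {h ϖ ϖ' d d' : ℝ} (H : Nz p U Z S X h ϖ d) (hϖ : ϖ ≤ ϖ') (hd : d ≤ d') :
    Nz p U Z S X h ϖ' d' := fun i hi G hG => (H i hi G (hϖ.trans hG)).trans (by linarith)

open Classical in
/-- **The recursion.** -/
theorem fast_rec (D : ℕ) (C h c : ℝ) (hC : 1 ≤ C) (hh0 : 0 < h) (hh1 : h ≤ 1) (hc : 0 < c)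
    (J : ℕ) : ∀ ε ϖ' : ℝ, 0 < ε → 0 < ϖ' → ∃ κ ϖ : ℝ, 0 < κ ∧ 0 < ϖ ∧ ∃ X₀ : ℕ,
    ∀ {Ω σ : Type} [Fintype Ω] {p : Ω → ℝ} {U Z : Ω → ℤ} {S : ℕ → Ω → σ}
    {Ω' : ℕ → Type} [∀ r, Fintype (Ω' r)] {τ : ℕ → Type} {q : ∀ r, Ω' r → ℝ}
    {f : ∀ r, Ω' r → Ω} {W : ∀ r, Ω' r → τ r} {t : ∀ r, Ω' r → ℤ} {AU AZ : ∀ r, Ω' r → ℝ}
    {gU gZ : ∀ r, Ω' r → Fin D → ℝ} {M N K : ℕ} {n k m : ℕ → ℕ} {d : ℝ},
    Chn D p U Z S Ω' τ q f W t AU AZ gU gZ M N K J n k m C d →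
    c * K ≤ k 0 → X₀ ≤ K → 0 ≤ d → d ≤ κ * K →
    (∀ r ≤ J, Nz p (fun ω => tp N (n r) (U ω)) (fun ω => tp K (k r) (Z ω)) (S r) (k r) h ϖ
      (κ * K)) →
    (∀ r < J, Ex (q (r + 1)) (fun w => if (2 : ℝ) ^ ((n (r + 1) : ℝ) - m (r + 1) - κ * K) ≤
      n1 (gU (r + 1) w) then 0 else 1) ≤ κ) →
    Nz p (fun ω => tp N (nu n m J 0) (U ω)) (fun ω => tp K (k 0) (Z ω)) (S 0) (k 0) h ϖ'
      (ε * K) ∧
    Ex (q 0) (fun w => if n1 (gZ 0 w) ≤ (2 : ℝ) ^ (((nu n m J 0 - m 0 : ℕ) : ℝ) + ε * K) then 0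
      else 1) ≤ ε := by
  induction J with
  | zero =>
    intro ε ϖ' hε hϖ'
    obtain ⟨κ₀, ϖ₀, hκ₀, hϖ₀, X₀, H0⟩ := clo_of_row D C h c ε hC hh0 hh1 hc hε
    refine ⟨min κ₀ ε, min ϖ₀ ϖ', lt_min hκ₀ hε, lt_min hϖ₀ hϖ', X₀, ?_⟩
    intro Ω σ _ p U Z S Ω' _ τ q f W t AU AZ gU gZ M N K n k m d H hck hX hd hdκ hrow _
    have hK0 : (0 : ℝ) ≤ K := Nat.cast_nonneg K
    have e1 : min κ₀ ε * K ≤ κ₀ * K := mul_le_mul_of_nonneg_right (min_le_left _ _) hK0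
    have e2 : min κ₀ ε * K ≤ ε * K := mul_le_mul_of_nonneg_right (min_le_right _ _) hK0
    have hr := hrow 0 le_rfl
    refine ⟨Nz.mono' hr (min_le_right _ _) e2, ?_⟩
    have T := H0 (ν := n 0) (k := k 0) (m := m 0) (Q := K) (H.hop 0 le_rfl) le_rfl le_rfl
      (H.nk 0 le_rfl) (H.kM 0 le_rfl) (H.mn 0 le_rfl) (H.kK 0 le_rfl) hck (H.su 0 le_rfl)
      (H.sz 0 le_rfl) (by
        simp only [tp_self]
        exact Nz.mono' hr (min_le_left _ _) e1) hX hd (hdκ.trans e1)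
    simp only [sub_self, zero_add] at T
    exact T
  | succ J IH =>
    intro ε ϖ' hε hϖ'
    obtain ⟨κ₀, ϖ₀, hκ₀, hϖ₀, X₀, H0⟩ := clo_of_row D C h c ε hC hh0 hh1 hc hε
    obtain ⟨ϖ₁, hϖ₁⟩ : ∃ ϖ₁ : ℝ, ϖ₁ = min ϖ₀ ϖ' := ⟨_, rfl⟩
    have hϖ₁0 : 0 < ϖ₁ := by rw [hϖ₁]; exact lt_min hϖ₀ hϖ'
    obtain ⟨κ₁, hκ₁, X₁, H1⟩ := row_of_clo D C c (min κ₀ ε) ϖ₁ hC hc (lt_min hκ₀ hε) hϖ₁0
    obtain ⟨κ₂, ϖ₂, hκ₂, hϖ₂, X₂, H2⟩ := IH κ₁ 1 hκ₁ one_pos
    refine ⟨min κ₂ (min κ₁ (min κ₀ ε)), min ϖ₂ ϖ₁, lt_min hκ₂ (lt_min hκ₁ (lt_min hκ₀ hε)),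
      lt_min hϖ₂ hϖ₁0, max X₀ (max X₁ X₂), ?_⟩
    intro Ω σ _ p U Z S Ω' _ τ q f W t AU AZ gU gZ M N K n k m d H hck hX hd hdκ hrow halv
    have hK0 : (0 : ℝ) ≤ K := Nat.cast_nonneg K
    have f1 : min κ₂ (min κ₁ (min κ₀ ε)) ≤ κ₂ := min_le_left _ _
    have f2 : min κ₂ (min κ₁ (min κ₀ ε)) ≤ κ₁ := (min_le_right _ _).trans (min_le_left _ _)
    have f3 : min κ₂ (min κ₁ (min κ₀ ε)) ≤ min κ₀ ε :=
      (min_le_right _ _).trans (min_le_right _ _)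
    have e1 := mul_le_mul_of_nonneg_right f1 hK0
    have e2 := mul_le_mul_of_nonneg_right f2 hK0
    have e3 := mul_le_mul_of_nonneg_right f3 hK0
    have e4 : min κ₀ ε * K ≤ κ₀ * K := mul_le_mul_of_nonneg_right (min_le_left _ _) hK0
    have e5 : min κ₀ ε * K ≤ ε * K := mul_le_mul_of_nonneg_right (min_le_right _ _) hK0
    have b0 : X₀ ≤ K := (le_max_left _ _).trans hX
    have b1 : X₁ ≤ K := (le_max_left _ _).trans ((le_max_right _ _).trans hX)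
    have b2 : X₂ ≤ K := (le_max_right _ _).trans ((le_max_right _ _).trans hX)
    have hs := H.stp 0 (Nat.succ_pos J)
    have hk01 : k 0 ≤ k 1 := le_trans (Nat.le_add_right _ _) hs
    -- the ball `1`
    have alv : ∀ (x y : ℝ) (g : ℕ), x ≤ y → ∀ w : Ω' g,
        (if (2 : ℝ) ^ ((n g : ℝ) - m g - y * K) ≤ n1 (gU g w) then (0 : ℝ) else 1) ≤
          if (2 : ℝ) ^ ((n g : ℝ) - m g - x * K) ≤ n1 (gU g w) then 0 else 1 := by
      intro x y g hxy w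
      have h1 : (2 : ℝ) ^ ((n g : ℝ) - m g - y * K) ≤ (2 : ℝ) ^ ((n g : ℝ) - m g - x * K) := by
        refine Real.rpow_le_rpow_of_exponent_le one_le_two ?_
        have := mul_le_mul_of_nonneg_right hxy hK0
        linarith
      by_cases h2 : (2 : ℝ) ^ ((n g : ℝ) - m g - x * K) ≤ n1 (gU g w)
      · rw [if_pos (h1.trans h2), if_pos h2]
      · rw [if_neg h2]
        split_ifs <;> norm_num
    have T := H2 H.tail (by
        have : (k 0 : ℝ) ≤ k (0 + 1) := by exact_mod_cast hk01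
        linarith) b2 hd (hdκ.trans e1) (fun r hr => Nz.mono' (hrow (r + 1) (by omega))
          (min_le_left _ _) e1) (fun r hr => by
        refine (Ex_mono (H.hop (r + 2) (by omega)).lq.nonneg fun w _ =>
          alv _ _ (r + 2) f1 w).trans ((halv (r + 1) (by omega)).trans f1))
    obtain ⟨-, T2⟩ := T
    rw [nu_succ] at T2
    have cl : Ex (q 1) (fun w => if n1 (gZ 1 w) ≤ (2 : ℝ) ^ ((k 1 : ℝ) - k 0 + κ₁ * K) then 0
        else 1) ≤ κ₁ := by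
      refine le_trans (Ex_mono (H.hop 1 (by omega)).lq.nonneg fun w _ => ?_) T2
      have h1 : (2 : ℝ) ^ (((nu n m (J + 1) (0 + 1) - m (0 + 1) : ℕ) : ℝ) + κ₁ * K) ≤
          (2 : ℝ) ^ ((k 1 : ℝ) - k 0 + κ₁ * K) := by
        refine Real.rpow_le_rpow_of_exponent_le one_le_two ?_
        have h2 : (k 0 : ℝ) + ((nu n m (J + 1) (0 + 1) - m (0 + 1) : ℕ) : ℝ) ≤ k 1 := by
          exact_mod_cast hs
        linarith
      by_cases h2 : n1 (gZ 1 w) ≤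
          (2 : ℝ) ^ (((nu n m (J + 1) (0 + 1) - m (0 + 1) : ℕ) : ℝ) + κ₁ * K)
      · rw [if_pos (h2.trans h1)]
        split_ifs <;> norm_num
      · have h3 : (if n1 (gZ (0 + 1) w) ≤
            (2 : ℝ) ^ (((nu n m (J + 1) (0 + 1) - m (0 + 1) : ℕ) : ℝ) + κ₁ * K) then (0 : ℝ)
            else 1) = 1 := if_neg h2
        rw [h3]
        split_ifs <;> norm_num
    -- the row of the ball `0`
    have hr0 := hrow 0 (by omega)
    have hn0 : nu n m (J + 1) 0 = min (n 0) (m 1) := by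
      unfold nu
      rw [if_pos (Nat.succ_pos J)]
    have row : Nz p (fun ω => tp N (nu n m (J + 1) 0) (U ω)) (fun ω => tp K (k 0) (Z ω)) (S 0)
        (k 0) h ϖ₁ (min κ₀ ε * K) := by
      rw [hn0]
      rcases Nat.lt_or_ge (m 1) (n 0) with hm | hm
      · rw [min_eq_right hm.le]
        have H' := H.hop 1 (by omega)
        have H'' : Hop D p (q 1) (f 1) (W 1) (t 1) (fun ω => tp N (n 1) (U ω))
            (fun ω => tp K (k 1) (Z ω)) (S 0) (AU 1) (AZ 1) (gU 1) (gZ 1) M C d :=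
          ⟨H'.lp, H'.lq, H'.im, H'.t0, H'.full, H'.u, H'.z, H.dS 0 (Nat.succ_pos J)⟩
        have T := H1 (n := n 0) (k := k 0) (m := m 1) (Q := K) (h := h) H''
          (H.nn 0 (Nat.succ_pos J)) hk01 (H.nk 0 (by omega)) (H.kM 0 (by omega)) hm.le
          (H.kK 0 (by omega)) hck (H.su 1 (by omega)) cl
          ((Ex_mono H'.lq.nonneg fun w _ => alv _ _ 1 f2 w).trans
            ((halv 0 (Nat.succ_pos J)).trans f2)) (by
            have e7 : (fun ω => tp (n 1) (n 0) (tp N (n 1) (U ω))) =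
                fun ω => tp N (n 0) (U ω) := by
              funext ω
              exact tp_tp (H.nN 1 (by omega)) (H.nn 0 (Nat.succ_pos J)) _
            have e8 : (fun ω => tp (k 1) (k 0) (tp K (k 1) (Z ω))) =
                fun ω => tp K (k 0) (Z ω) := by
              funext ω
              exact tp_tp (H.kK 1 (by omega)) hk01 _
            rw [e7, e8]
            exact Nz.mono' hr0 (min_le_right _ _) e2) b1 hd (hdκ.trans e2)
        have e7 : (fun ω => tp (n 1) (m 1) (tp N (n 1) (U ω))) =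
            fun ω => tp N (m 1) (U ω) := by
          funext ω
          exact tp_tp (H.nN 1 (by omega)) (H.mn 1 (by omega)) _
        have e8 : (fun ω => tp (k 1) (k 0) (tp K (k 1) (Z ω))) =
            fun ω => tp K (k 0) (Z ω) := by
          funext ω
          exact tp_tp (H.kK 1 (by omega)) hk01 _
        rw [e7, e8] at T
        exact T
      · rw [min_eq_left hm]
        exact Nz.mono' hr0 (min_le_right _ _) e3
    refine ⟨Nz.mono' row (by rw [hϖ₁]; exact min_le_right _ _) e5, ?_⟩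
    have e7 : (fun ω => tp (n 0) (nu n m (J + 1) 0) (tp N (n 0) (U ω))) =
        fun ω => tp N (nu n m (J + 1) 0) (U ω) := by
      funext ω
      exact tp_tp (H.nN 0 (by omega)) (nu_le n m (J + 1) 0) _
    have T := H0 (ν := nu n m (J + 1) 0) (k := k 0) (m := m 0) (Q := K) (H.hop 0 (by omega))
      (nu_le n m (J + 1) 0) le_rfl ((nu_le n m (J + 1) 0).trans (H.nk 0 (by omega)))
      (H.kM 0 (by omega)) (H.mn 0 (by omega)) (H.kK 0 (by omega)) hck (H.su 0 (by omega))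
      (H.sz 0 (by omega)) (by
        rw [e7]
        simp only [tp_self]
        exact Nz.mono' row (by rw [hϖ₁]; exact min_le_left _ _) e4) b0 hd
      (hdκ.trans (e3.trans e4))
    simp only [sub_self, zero_add] at T
    exact T

end Pool.E25
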