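import Pool.Agent.H12.LPK.Hir
import Pool.Agent.H12.LPK.Hfa

/-!
# A chain of hops: the two steps

`clo_of_row`: a row of `Z` which is not full bounds the displacement of `Z` over a ball. `row_of_clo`:
if the displacement of `Z` over a ball is small and that of `U` is not, the row of `Z` given `U` is a
row of `Z` given the first digits of `U`.
-/

set_option autoImplicit false

namespace Pool.E25

open Finset Real
open Pool.Agent.H49.Ent Pool.Agent.H32.Dense Pool.STK Pool.POT Pool.TQ Pool.LPX Pool.LPK12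
open Pool.K2S (Pe)

variable {Ω Ω' τ σ : Type} [Fintype Ω] [Fintype Ω']

theorem tp_tp {N n l : ℕ} (hn : n ≤ N) (hl : l ≤ n) (z : ℤ) : tp n l (tp N n z) = tp N l z := by
  unfold tp
  rw [Int.ediv_ediv_of_nonneg (by positivity), ← pow_add]
  congr 2
  omega

theorem pw_div (a b : ℕ) (x : ℝ) : x / (2 : ℝ) ^ (a - b) = x * (2 : ℝ) ^ (-((a - b : ℕ) : ℝ)) := by
  rw [Real.rpow_neg two_pos.le, Real.rpow_natCast, div_eq_mul_inv]

open Classical in
/-- **The displacement from the row.** `U` has `N` digits, `Z` has `K` digits; the row is a row of the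
first `k` digits of `Z` given the first `ν` digits of `U`; on the ball `U` is known to `m` digits. -/
theorem clo_of_row (D : ℕ) (C h c ε : ℝ) (hC : 1 ≤ C) (hh0 : 0 < h) (hh1 : h ≤ 1) (hc : 0 < c)
    (hε : 0 < ε) : ∃ κ ϖ : ℝ, 0 < κ ∧ 0 < ϖ ∧ ∃ X₀ : ℕ,
    ∀ {Ω Ω' τ σ : Type} [Fintype Ω] [Fintype Ω'] {p : Ω → ℝ} {q : Ω' → ℝ} {f : Ω' → Ω}
    {W : Ω' → τ} {t : Ω' → ℤ} {U Z : Ω → ℤ} {S : Ω → σ} {AU AZ : Ω' → ℝ}
    {gU gZ : Ω' → Fin D → ℝ} {M N K ν k m Q : ℕ} {d : ℝ},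
    Hop D p q f W t U Z S AU AZ gU gZ M C d → ν ≤ N → k ≤ K → ν ≤ k → k ≤ M → m ≤ N →
    k ≤ Q → c * Q ≤ k →
    (∀ w, 0 < q w → n1 (gU w) ≤ C * 2 ^ (N - m)) → (∀ w, 0 < q w → n1 (gZ w) ≤ C * 2 ^ K) →
    Nz p (fun ω => tp N ν (U ω)) (fun ω => tp K k (Z ω)) S k h ϖ (κ * Q) → X₀ ≤ Q → 0 ≤ d →
    d ≤ κ * Q →
    Ex q (fun w => if n1 (gZ w) ≤ (2 : ℝ) ^ ((K : ℝ) - k + ((ν - m : ℕ) : ℝ) + ε * Q) then 0
      else 1) ≤ ε := by
  obtain ⟨ε', hε'⟩ : ∃ ε' : ℝ, ε' = ε / 2 := ⟨_, rfl⟩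
  have hε'0 : 0 < ε' := by rw [hε']; linarith
  obtain ⟨κ, ϖ, hκ, hϖ, X₀, H0⟩ := hop_fast D (C + 1) h ε' (by linarith) hh0 hh1 hε'0
  obtain ⟨X1, hX1⟩ := exists_nat_ge (X₀ / c)
  obtain ⟨X2, hX2⟩ := exists_nat_ge (Real.log C / Real.log 2 / ε')
  refine ⟨κ * c, ϖ, by positivity, hϖ, max X1 X2, ?_⟩
  intro Ω Ω' τ σ _ _ p q f W t U Z S AU AZ gU gZ M N K ν k m Q d H hν hk hνk hkM hm hkQ hck hsu
    hsz hrow hX hd hdκ
  have hl2 : 0 < Real.log 2 := Real.log_pos one_lt_two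
  have hK0 : (0 : ℝ) ≤ Q := Nat.cast_nonneg Q
  have hkK : (k : ℝ) ≤ Q := by exact_mod_cast hkQ
  have hC0 : 0 ≤ C := by linarith
  have x1 : (X₀ : ℝ) ≤ k := by
    have h1 : X₀ / c ≤ Q := hX1.trans (by exact_mod_cast (le_max_left _ _).trans hX)
    rw [div_le_iff₀ hc] at h1
    linarith
  have x2 : Real.log C ≤ ε' * Q * Real.log 2 := by
    have h1 : Real.log C / Real.log 2 / ε' ≤ Q :=
      hX2.trans (by exact_mod_cast (le_max_right _ _).trans hX)
    rw [div_le_iff₀ hε'0, div_le_iff₀ hl2] at h1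
    linarith
  have x3 : C ≤ (2 : ℝ) ^ (ε' * Q) := by
    rw [Real.rpow_def_of_pos two_pos, ← Real.log_le_iff_le_exp (by linarith)]
    linarith
  have hκk : κ * c * Q ≤ κ * k := by
    have := mul_le_mul_of_nonneg_left hck hκ.le
    linarith
  have hT := (H.trunc hC0 N ν K k)
  have hq := H.lq
  have h2N : ∀ w, 0 < q w → n1 (gU w) / 2 ^ (N - ν) ≤ C * (2 : ℝ) ^ ((ν - m : ℕ) : ℝ) := by
    intro w hw
    rw [div_le_iff₀ (by positivity), mul_assoc, Real.rpow_natCast, ← pow_add]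
    refine (hsu w hw).trans (mul_le_mul_of_nonneg_left ?_ hC0)
    exact pow_le_pow_right₀ (by norm_num) (by omega)
  have key := H0 (hT.side le_rfl hdκ) hνk hkM (fun w hw => by
      rw [n1_div _ _ (by positivity), div_le_iff₀ (by positivity), mul_assoc, ← pow_add]
      refine (hsu w hw).trans (mul_le_mul (by linarith) ?_ (by positivity) (by linarith))
      exact pow_le_pow_right₀ (by norm_num) (by omega))
    (fun w hw => by
      rw [n1_div _ _ (by positivity), div_le_iff₀ (by positivity), mul_assoc, ← pow_add]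
      refine (hsz w hw).trans (mul_le_mul (by linarith) ?_ (by positivity) (by linarith))
      exact pow_le_pow_right₀ (by norm_num) (by omega))
    hrow (by exact_mod_cast x1) (by positivity) hκk
  refine le_trans (Ex_mono hq.nonneg fun w hw => ?_) (key.trans (by rw [hε']; linarith))
  by_cases h1 : n1 (fun j => gZ w j / 2 ^ (K - k)) ≤
      (2 : ℝ) ^ (ε' * k) * max 1 (n1 fun j => gU w j / 2 ^ (N - ν))
  · rw [if_pos h1, if_pos]
    rw [n1_div _ _ (by positivity), n1_div _ _ (by positivity),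
      div_le_iff₀ (by positivity)] at h1
    refine h1.trans ?_
    have e1 : max 1 (n1 (gU w) / 2 ^ (N - ν)) ≤ C * (2 : ℝ) ^ ((ν - m : ℕ) : ℝ) := by
      refine max_le ?_ (h2N w hw)
      have : (1 : ℝ) ≤ (2 : ℝ) ^ ((ν - m : ℕ) : ℝ) :=
        Real.one_le_rpow one_le_two (Nat.cast_nonneg _)
      nlinarith
    have e2 : (2 : ℝ) ^ (ε' * k) ≤ (2 : ℝ) ^ (ε' * Q) :=
      Real.rpow_le_rpow_of_exponent_le one_le_two (mul_le_mul_of_nonneg_left hkK hε'0.le)
    have e3 : (2 : ℝ) ^ (K - k) = (2 : ℝ) ^ ((K : ℝ) - k) := by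
      rw [← Real.rpow_natCast, Nat.cast_sub hk]
    calc (2 : ℝ) ^ (ε' * k) * max 1 (n1 (gU w) / 2 ^ (N - ν)) * 2 ^ (K - k)
        ≤ (2 : ℝ) ^ (ε' * Q) * ((2 : ℝ) ^ (ε' * Q) * (2 : ℝ) ^ ((ν - m : ℕ) : ℝ)) *
          2 ^ (K - k) := by
          refine mul_le_mul_of_nonneg_right (mul_le_mul e2 (e1.trans
            (mul_le_mul_of_nonneg_right x3 (by positivity))) ?_ (by positivity)) (by positivity)
          exact zero_le_one.trans (le_max_left _ _)
      _ = (2 : ℝ) ^ ((K : ℝ) - k + ((ν - m : ℕ) : ℝ) + ε * Q) := by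
          rw [e3, ← Real.rpow_add two_pos, ← Real.rpow_add two_pos, ← Real.rpow_add two_pos, hε']
          congr 1
          ring
  · rw [if_neg h1]
    split_ifs <;> norm_num

open Classical in
/-- **The row from the displacements.** The ball knows `U` to `m` digits, the digits behind move; `Z`
does not move to `k` digits. -/
theorem row_of_clo (D : ℕ) (C c ε ϖ : ℝ) (hC : 1 ≤ C) (hc : 0 < c) (hε : 0 < ε)
    (hϖ : 0 < ϖ) : ∃ κ : ℝ, 0 < κ ∧ ∃ X₀ : ℕ,
    ∀ {Ω Ω' τ σ : Type} [Fintype Ω] [Fintype Ω'] {p : Ω → ℝ} {q : Ω' → ℝ} {f : Ω' → Ω}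
    {W : Ω' → τ} {t : Ω' → ℤ} {U Z : Ω → ℤ} {S : Ω → σ} {AU AZ : Ω' → ℝ}
    {gU gZ : Ω' → Fin D → ℝ} {M N K n k m Q : ℕ} {d h : ℝ},
    Hop D p q f W t U Z S AU AZ gU gZ M C d → n ≤ N → k ≤ K → n ≤ k → k ≤ M → m ≤ n →
    k ≤ Q → c * Q ≤ k →
    (∀ w, 0 < q w → n1 (gU w) ≤ C * 2 ^ (N - m)) →
    Ex q (fun w => if n1 (gZ w) ≤ (2 : ℝ) ^ ((K : ℝ) - k + κ * Q) then 0 else 1) ≤ κ →
    Ex q (fun w => if (2 : ℝ) ^ ((N : ℝ) - m - κ * Q) ≤ n1 (gU w) then 0 else 1) ≤ κ →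
    Nz p (fun ω => tp N n (U ω)) (fun ω => tp K k (Z ω)) S k h ϖ (κ * Q) → X₀ ≤ Q → 0 ≤ d →
    d ≤ κ * Q →
    Nz p (fun ω => tp N m (U ω)) (fun ω => tp K k (Z ω)) S k h ϖ (ε * Q) := by
  obtain ⟨κ, hκ, X₀, H0⟩ := hop_ind D (C + 1) (ε / 4) ϖ (by linarith) (by linarith) hϖ
  obtain ⟨X1, hX1⟩ := exists_nat_ge (X₀ / c)
  obtain ⟨X2, hX2⟩ := exists_nat_ge (8 / ε)
  obtain ⟨κ', hκ'⟩ : ∃ κ' : ℝ, κ' = min (min (κ * c) (κ / 2)) (ε / 4) := ⟨_, rfl⟩
  have hκ'0 : 0 < κ' := by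
    rw [hκ']
    exact lt_min (lt_min (by positivity) (by positivity)) (by linarith)
  have k1 : κ' ≤ κ * c := by rw [hκ']; exact (min_le_left _ _).trans (min_le_left _ _)
  have k2 : κ' ≤ κ / 2 := by rw [hκ']; exact (min_le_left _ _).trans (min_le_right _ _)
  have k3 : κ' ≤ ε / 4 := by rw [hκ']; exact min_le_right _ _
  refine ⟨κ', hκ'0, max X1 X2, ?_⟩
  intro Ω Ω' τ σ _ _ p q f W t U Z S AU AZ gU gZ M N K n k m Q d h H hn hk hnk hkM hm hkQ hck
    hsu hz hu hrow hX hd hdκ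
  have hK0 : (0 : ℝ) ≤ Q := Nat.cast_nonneg Q
  have hkK : (k : ℝ) ≤ Q := by exact_mod_cast hkQ
  have hC0 : 0 ≤ C := by linarith
  have x1 : (X₀ : ℝ) ≤ k := by
    have h1 : X₀ / c ≤ Q := hX1.trans (by exact_mod_cast (le_max_left _ _).trans hX)
    rw [div_le_iff₀ hc] at h1
    linarith
  have x2 : 8 ≤ ε * Q := by
    have h1 : 8 / ε ≤ Q := hX2.trans (by exact_mod_cast (le_max_right _ _).trans hX)
    rw [div_le_iff₀ hε] at h1
    linarith
  have hκk : κ' * Q ≤ κ * k := by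
    have h1 := mul_le_mul_of_nonneg_left hck hκ.le
    have h2 := mul_le_mul_of_nonneg_right k1 hK0
    linarith
  have hq := H.lq
  have hT := H.trunc hC0 N n K k
  have key := H0 (l := m) (hT.side le_rfl (hdκ.trans hκk)) hnk hkM (fun w hw => by
      rw [n1_div _ _ (by positivity), div_le_iff₀ (by positivity), mul_assoc, ← pow_add]
      refine (hsu w hw).trans (mul_le_mul (by linarith) ?_ (by positivity) (by linarith))
      exact pow_le_pow_right₀ (by norm_num) (by omega))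
    (by
      have h1 : Ex q (fun w => if n1 (fun j => gZ w j / 2 ^ (K - k)) ≤ (2 : ℝ) ^ (κ * k) ∧
          (2 : ℝ) ^ ((n : ℝ) - m - κ * k) ≤ n1 (fun j => gU w j / 2 ^ (N - n)) then 0 else 1) ≤
          Ex q (fun w => (if n1 (gZ w) ≤ (2 : ℝ) ^ ((K : ℝ) - k + κ' * Q) then 0 else 1) +
            if (2 : ℝ) ^ ((N : ℝ) - m - κ' * Q) ≤ n1 (gU w) then 0 else 1) := by
        refine Ex_mono hq.nonneg fun w hw => ?_
        by_cases h1 : n1 (gZ w) ≤ (2 : ℝ) ^ ((K : ℝ) - k + κ' * Q)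
        · by_cases h2 : (2 : ℝ) ^ ((N : ℝ) - m - κ' * Q) ≤ n1 (gU w)
          · rw [if_pos h1, if_pos h2, if_pos]
            · norm_num
            · refine ⟨?_, ?_⟩
              · rw [n1_div _ _ (by positivity), div_le_iff₀ (by positivity)]
                refine h1.trans ?_
                rw [← Real.rpow_natCast 2 (K - k), Nat.cast_sub hk, ← Real.rpow_add two_pos]
                exact Real.rpow_le_rpow_of_exponent_le one_le_two (by linarith)
              · rw [n1_div _ _ (by positivity), le_div_iff₀ (by positivity)]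
                refine le_trans ?_ h2
                rw [← Real.rpow_natCast 2 (N - n), Nat.cast_sub hn, ← Real.rpow_add two_pos]
                exact Real.rpow_le_rpow_of_exponent_le one_le_two (by linarith)
          · rw [if_neg h2]
            split_ifs <;> norm_num
        · rw [if_neg h1]
          split_ifs <;> norm_num
      refine h1.trans ?_
      rw [Ex_add]
      linarith) (by exact_mod_cast x1) (by positivity) le_rfl
  have h5 : Real.log 5 ≤ 2 := by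
    rw [Real.log_le_iff_le_exp (by norm_num)]
    have h1 := Real.exp_one_gt_d9
    have h2 : Real.exp 2 = Real.exp 1 * Real.exp 1 := by
      rw [← Real.exp_add]
      norm_num
    rw [h2]
    nlinarith
  have r := row_of_ind H.lp hm hϖ hrow key
  have e1 : (fun ω => tp n m (tp N n (U ω))) = fun ω => tp N m (U ω) := by
    funext ω
    exact tp_tp hn hm _
  rw [e1] at r
  intro i hi G hG
  refine (r i hi G hG).trans ?_
  have e2 : ε / 4 * k ≤ ε / 4 * Q := mul_le_mul_of_nonneg_left hkK (by linarith)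
  have e3 := mul_le_mul_of_nonneg_right k3 hK0
  linarith

end Pool.E25
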